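import Mathlib
import Pool.Agent.Helper63.KB.Defs
import Pool.Agent.Helper63.KB.ExistsUnif
import Pool.Agent.Helper53.KB.Assembly
import Pool.Agent.Helper42.KB.Area
import Pool.Agent.Helper42.KB.Unique

/-!
# The embolic constant of the Klein bottle, and it is not attained

The embolic functional `g ↦ Vol(K, g) / Inj(K, g)²` on smooth Riemannian metrics of the Klein
bottle `K` has infimum `8 √2 / π`, and no smooth Riemannian metric attains it.

The definitions are in `Pool/Agent/Helper63/KB/Defs.lean`.  A smooth Riemannian metric on
`K = ℝ² / Γ` is a `Γ`-invariant smooth Riemannian metric on the plane (`KB.RMetric`);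
`KB.RMetric.embolic` is area divided by the square of the injectivity radius, and the injectivity
radius is the supremum of the `r ≥ 0` such that any two points of `K` at distance less than `r`
are joined by exactly one shortest path.

Proof.
* Lower bound: the systole inequality `2 Inj ≤ sys`, the uniformization theorem for the Klein
  bottle (proved here through the Beltrami equation), and Bavard's inequality
  `area > (2 √2 / π) sys²` for smooth metrics.
* Upper bound: the explicit metrics `dφ² + w(φ)² dθ²` with
  `w = (√(1 + ε + sin 2φ) + √(1 + ε - sin 2φ)) / 2` have injectivity radius at least `π/2` and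
  area at most `2 √2 π + π² √ε`.
-/

open Real MeasureTheory Set
open scoped ContDiff ENNReal NNReal

namespace Pool.Agent.Results.MP_926704_gt.KleinBottle

lemma exists_good {ε : ℝ} (hε : 0 < ε) :
    ∃ g : KB.RMetric, g.embolic ≤ ENNReal.ofReal (8 * √2 / π + ε) := by
  have hπ := Real.pi_pos
  -- choose the parameter so that `4 √ε' = ε`
  have he : (0 : ℝ) < (ε / 4) ^ 2 := by positivity
  refine ⟨KB.geps ((ε / 4) ^ 2) he, ?_⟩
  set g := KB.geps ((ε / 4) ^ 2) he with hg
  have hsq : √((ε / 4) ^ 2) = ε / 4 := Real.sqrt_sq (by positivity)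
  have harea : g.area ≤ 2 * √2 * π + π ^ 2 * (ε / 4) := by
    have := KB.geps_area_le he
    rwa [hsq] at this
  have hinj : ENNReal.ofReal (π / 2) ≤ g.injRad :=
    le_sSup ⟨π / 2, by positivity, KB.geps_uniqueShortest he, rfl⟩
  have h1 : g.embolic ≤ ENNReal.ofReal g.area / ENNReal.ofReal (π / 2) ^ 2 := by
    unfold KB.RMetric.embolic
    exact ENNReal.div_le_div_left (pow_le_pow_left' hinj 2) _
  refine h1.trans ?_
  rw [← ENNReal.ofReal_pow (by positivity), ← ENNReal.ofReal_div_of_pos (by positivity)]
  apply ENNReal.ofReal_le_ofReal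
  rw [div_le_iff₀ (by positivity)]
  refine harea.trans (le_of_eq ?_)
  field_simp
  ring

/-- **The embolic constant of the Klein bottle is `8 √2 / π`, and it is not attained** by any
smooth Riemannian metric. -/
theorem result :
    (⨅ g : KB.RMetric, g.embolic) = ENNReal.ofReal (8 * √2 / π) ∧
      ∀ g : KB.RMetric, (⨅ g' : KB.RMetric, g'.embolic) < g.embolic := by
  obtain ⟨h1, h2⟩ := KB.embolic_iInf KB.exists_unif (fun ε hε => exists_good hε)
  exact ⟨h1, fun g => by rw [h1]; exact h2 g⟩

end Pool.Agent.Results.MP_926704_gt.KleinBottle
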